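import Pool.Agent.H.MP_babce1_al.Main

set_option autoImplicit false

namespace Pool.Agent.Results.MP_babce1_al.Q1

variable {F : Type} [Field F] {A : Type} [AddCommGroup A] [Module F A]

def IsTP (mul br : A →ₗ[F] A →ₗ[F] A) : Prop :=
  (∀ x y, mul x y = mul y x) ∧ (∀ x y z, mul (mul x y) z = mul x (mul y z)) ∧
  (∀ x, br x x = 0) ∧ (∀ x y z, br x (br y z) + br y (br z x) + br z (br x y) = 0) ∧
  ∀ x y z, (2 : F) • mul z (br x y) = br (mul z x) y + br x (mul z y)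

def IsFree {ι : Type} (mul br : A →ₗ[F] A →ₗ[F] A) (x : ι → A) : Prop :=
  ∀ (B : Type) [AddCommGroup B] [Module F B] (mul' br' : B →ₗ[F] B →ₗ[F] B), IsTP mul' br' →
    ∀ b : ι → B, ∃! φ : A →ₗ[F] B, (∀ u v, φ (mul u v) = mul' (φ u) (φ v)) ∧
      (∀ u v, φ (br u v) = br' (φ u) (φ v)) ∧ ∀ i, φ (x i) = b i

def InSubalg (mul br : A →ₗ[F] A →ₗ[F] A) (S : Set A) (g : A) : Prop :=
  ∀ U : Submodule F A, (∀ s ∈ S, s ∈ U) → (∀ u ∈ U, ∀ v ∈ U, mul u v ∈ U ∧ br u v ∈ U) → g ∈ U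

def InIdeal (mul br : A →ₗ[F] A →ₗ[F] A) (f g : A) : Prop :=
  ∀ U : Submodule F A, f ∈ U → (∀ a : A, ∀ u ∈ U, mul a u ∈ U ∧ br a u ∈ U) → g ∈ U

theorem result (F : Type) [Field F] [CharZero F] :
    ∃ (T : Type) (_ : AddCommGroup T) (_ : Module F T) (mul br : T →ₗ[F] T →ₗ[F] T)
      (x : Fin 5 → T), IsTP mul br ∧ IsFree mul br x ∧
      ∃ f : T, ¬ InSubalg mul br (Set.range fun i : Fin 4 => x i.castSucc) f ∧
        ∃ g : T, g ≠ 0 ∧ InSubalg mul br (Set.range fun i : Fin 4 => x i.castSucc) g ∧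
          InIdeal mul br f g := by
  obtain ⟨T, x, hx, f, hf, g, hg0, hg1, hg2⟩ := Pool.Agent.H.MP_babce1_al.main F
  refine ⟨T.A, T.add, T.mod, T.mul, T.br, x,
    ⟨T.mul_comm, T.mul_assoc, T.br_self, T.jacobi, T.compat⟩, ?_, f, ?_, g, hg0, ?_, ?_⟩
  · intro B _ _ mul' br' h b
    exact hx ⟨B, mul', br', h.1, h.2.1, h.2.2.1, h.2.2.2.1, h.2.2.2.2⟩ b
  · intro h
    exact hf (Submodule.mem_sInf.2 fun U hU => h U hU.1 hU.2)
  · intro U h1 h2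
    exact Submodule.mem_sInf.1 hg1 U ⟨h1, h2⟩
  · intro U h1 h2
    exact Submodule.mem_sInf.1 hg2 U ⟨h1, h2⟩

end Pool.Agent.Results.MP_babce1_al.Q1
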